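import Pool.Agent.R950.WCF

/-!
The inequality `t_n(S/I) ≤ t_i(S/I) + t_{n-i}(S/I)` for the top degrees of the minimal syzygies of
the quotient of `S = K[x_1, …, x_n]` by a homogeneous ideal `I` fails, for `n = 6`, `i = 3`, by an
arbitrarily large amount, over every infinite field.
-/

set_option autoImplicit false

open MvPolynomial

namespace Pool.Agent.Results.MP_78a38c_al.TopSyzygyNotSubadditive

variable {K : Type} [Field K] {n : ℕ}

/-- The homogeneous part of degree `d` of `S/I`, where `S = K[x_1, …, x_n]`; it is zero for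
negative `d`. -/
noncomputable def piece (I : Ideal (MvPolynomial (Fin n) K)) :
    ℤ → Submodule K (MvPolynomial (Fin n) K ⧸ I)
  | Int.ofNat d => (homogeneousSubmodule (Fin n) K d).map (Ideal.Quotient.mkₐ K I).toLinearMap
  | Int.negSucc _ => ⊥

/-- The differential of the Koszul complex of `x_1, …, x_n` with coefficients in `S/I`. A chain `f`
assigns to a subset `T = {t_1 < ⋯ < t_i}` of the index set the coefficient of
`e_{t_1} ∧ ⋯ ∧ e_{t_i}`; the differential is
`(d f)(T) = ∑_{t ∉ T} (-1)^(number of elements of T smaller than t) x_t f(T ∪ {t})`. -/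
noncomputable def koszul (I : Ideal (MvPolynomial (Fin n) K)) :
    (Finset (Fin n) → MvPolynomial (Fin n) K ⧸ I) →ₗ[K]
      (Finset (Fin n) → MvPolynomial (Fin n) K ⧸ I) where
  toFun f := fun T => ∑ t ∈ Finset.univ \ T,
    ((-1 : ℤ) ^ (T.filter (· < t)).card) • (Ideal.Quotient.mk I (X t) * f (insert t T))
  map_add' f g := by
    funext T
    simp only [Pi.add_apply, mul_add, smul_add, Finset.sum_add_distrib]
  map_smul' c f := by
    funext T
    simp only [Pi.smul_apply, RingHom.id_apply, Finset.smul_sum, mul_smul_comm]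
    exact Finset.sum_congr rfl fun t _ => smul_comm _ _ _

/-- The Koszul chains of homological degree `i` and internal degree `j`: the coefficients of the
`e_{t_1} ∧ ⋯ ∧ e_{t_i}` are homogeneous of degree `j - i`. -/
def chains (I : Ideal (MvPolynomial (Fin n) K)) (i : ℕ) (j : ℤ) :
    Submodule K (Finset (Fin n) → MvPolynomial (Fin n) K ⧸ I) where
  carrier := {f | ∀ T, (T.card = i → f T ∈ piece I (j - i)) ∧ (T.card ≠ i → f T = 0)}
  add_mem' := by
    intro f g hf hg T
    exact ⟨fun h => Submodule.add_mem _ ((hf T).1 h) ((hg T).1 h),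
      fun h => by rw [Pi.add_apply, (hf T).2 h, (hg T).2 h, add_zero]⟩
  zero_mem' := fun _ => ⟨fun _ => Submodule.zero_mem _, fun _ => rfl⟩
  smul_mem' := by
    intro c f hf T
    exact ⟨fun h => Submodule.smul_mem _ c ((hf T).1 h),
      fun h => by rw [Pi.smul_apply, (hf T).2 h, smul_zero]⟩

/-- Koszul cycles -/
noncomputable def cycles (I : Ideal (MvPolynomial (Fin n) K)) (i : ℕ) (j : ℤ) :
    Submodule K (Finset (Fin n) → MvPolynomial (Fin n) K ⧸ I) :=
  chains I i j ⊓ LinearMap.ker (koszul I)

/-- Koszul boundaries -/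
noncomputable def boundaries (I : Ideal (MvPolynomial (Fin n) K)) (i : ℕ) (j : ℤ) :
    Submodule K (Finset (Fin n) → MvPolynomial (Fin n) K ⧸ I) :=
  (chains I (i + 1) j).map (koszul I)

/-- The graded Betti number `β_{i,j}(S/I) = dim_K Tor_i(S/I, K)_j`: the dimension of the part of
degree `j` of the `i`-th Koszul homology of `S/I`. -/
noncomputable def betti (I : Ideal (MvPolynomial (Fin n) K)) (i j : ℕ) : Cardinal :=
  Module.rank K (↥(cycles I i j) ⧸ (boundaries I i j).submoduleOf (cycles I i j))

/-- `t_i(S/I)`: the largest `j` with `β_{i,j}(S/I) ≠ 0`, and `-∞` (written `⊥`) if there is none. -/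
noncomputable def t (I : Ideal (MvPolynomial (Fin n) K)) (i : ℕ) : WithBot ℕ∞ :=
  ⨆ j : ℕ, ⨆ _ : betti I i j ≠ 0, ((j : ℕ∞) : WithBot ℕ∞)

lemma koszul_eq (I : Ideal (MvPolynomial (Fin n) K))
    (f : Finset (Fin n) → MvPolynomial (Fin n) K ⧸ I) (T : Finset (Fin n)) :
    koszul I f T = Pool.Agent.R950.WC.kz (Pool.Agent.R950.WC.xq I) Finset.univ f T := rfl

lemma mem_piece_iff (I : Ideal (MvPolynomial (Fin n) K)) (d : ℕ)
    (a : MvPolynomial (Fin n) K ⧸ I) :
    a ∈ piece I (d : ℤ) ↔ a ∈ Pool.Agent.R950.WC.Pq I d := Iff.rfl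

lemma betti_eq_zero_iff (I : Ideal (MvPolynomial (Fin n) K)) (i j : ℕ) :
    betti I i j = 0 ↔ cycles I i j ≤ boundaries I i j := by
  unfold betti
  rw [rank_zero_iff, Submodule.Quotient.subsingleton_iff]
  constructor
  · intro h f hf
    have h1 : (⟨f, hf⟩ : cycles I i j) ∈ (boundaries I i j).submoduleOf (cycles I i j) := by
      rw [h]
      trivial
    exact h1
  · intro h
    rw [eq_top_iff]
    rintro ⟨f, hf⟩ _
    exact h hf

/-- **The weak convexity inequality fails.** Over every infinite field `K`, and for every `m`,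
there is a homogeneous ideal `I` of `S = K[x_1, …, x_6]` with
`t_6(S/I) > t_3(S/I) + t_3(S/I) + m`. -/
theorem result (K : Type) [Field K] [Infinite K] (m : ℕ) :
    ∃ I : Ideal (MvPolynomial (Fin 6) K),
      (letI := MvPolynomial.gradedAlgebra (σ := Fin 6) (R := K)
       I.IsHomogeneous (homogeneousSubmodule (Fin 6) K)) ∧
      t I 3 + t I 3 + m < t I 6 := by
  classical
  set c := 4 * (m + 2) with hc
  set k := 4 * (m + 2) + (m + 2) with hk
  obtain ⟨z, z0, z1, z2⟩ := Pool.Agent.R950.WC.exists_points (K := K) c k (by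
    rw [Pool.Agent.R950.WC.finrank_homog, Pool.Agent.R950.WC.finrank_homog]
    exact Pool.Agent.R950.WC.choose_ineq (m + 2))
  have hz : Pool.Agent.R950.WC.Pts z c k := ⟨rfl, z0, z1, z2⟩
  set I := Pool.Agent.R950.WC.II z (c + k) with hI
  have h3 : t I 3 ≤ ((c + 4 : ℕ) : ℕ∞) := by
    unfold t
    refine iSup_le fun j => iSup_le fun hj => ?_
    have hj' : j ≤ c + 4 := by
      by_contra hno
      apply hj
      rw [betti_eq_zero_iff]
      rintro f ⟨hf1, hf2⟩
      obtain ⟨e, he⟩ : ∃ e, j = e + 4 := ⟨j - 4, by omega⟩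
      have hd3 : (j : ℤ) - (3 : ℕ) = ((e + 1 : ℕ) : ℤ) := by rw [he]; push_cast; ring
      have hd4 : (j : ℤ) - (3 + 1 : ℕ) = ((e : ℕ) : ℤ) := by rw [he]; push_cast; ring
      obtain ⟨w, w1, w2, w3⟩ := Pool.Agent.R950.WC.van_three hz e (by omega) f (by
        intro T hT
        apply (hf1 T).2
        exact fun h => hT ⟨Finset.subset_univ T, h⟩) (by
        intro T
        by_cases hT : T.card = 3
        · have := (hf1 T).1 hT
          rw [hd3, mem_piece_iff] at this
          exact this
        · rw [(hf1 T).2 hT]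
          exact AddSubgroup.zero_mem _) (by
        intro T
        have h1 : koszul I f = 0 := hf2
        exact congrFun h1 T)
      refine ⟨w, ?_, ?_⟩
      · intro T
        refine ⟨fun h => ?_, fun h => w1 T fun h2 => h h2.2⟩
        rw [hd4, mem_piece_iff]
        exact w2 T
      · funext T
        rw [koszul_eq]
        exact (w3 T).symm
    exact_mod_cast hj'
  have h6 : (((c + k + 7 : ℕ) : ℕ∞) : WithBot ℕ∞) ≤ t I 6 := by
    unfold t
    refine le_iSup_of_le (c + k + 7) (le_iSup_of_le ?_ le_rfl)
    intro h0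
    rw [betti_eq_zero_iff] at h0
    obtain ⟨g, g1, g2, g3⟩ := hz.surj (d := c + k) (by omega)
      (fun ε => if ε = 0 then 1 else 0) (by
      intro ε hε
      rw [if_neg]
      rintro rfl
      apply hε
      refine ⟨fun _ => rfl, ?_⟩
      rw [map_zero, zero_add])
    have hgI : g ∉ I := by
      intro h
      have h1 := Pool.Agent.R950.WC.Psi_eq_zero.2 h.2
      rw [g3] at h1
      have h2 := congrFun h1 0
      rw [if_pos rfl] at h2
      exact one_ne_zero h2
    have hXg : ∀ t : Fin 6, X t * g ∈ I := by
      intro t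
      refine ⟨Ideal.mul_mem_left _ _ g1, ?_⟩
      have hh : (X t * g).IsHomogeneous (c + k + 2) := by
        have := (isHomogeneous_X K t).mul g2
        have e1 : 1 + (c + k + 1) = c + k + 2 := by ring
        rw [e1] at this
        exact this
      intro h
      have h5 : h = ∑ i ∈ Finset.range (h.totalDegree + 1), homogeneousComponent i h :=
        (sum_homogeneousComponent h).symm
      rw [h5, Finset.mul_sum, map_sum]
      refine Finset.sum_eq_zero fun i _ => ?_
      exact Pool.Agent.R950.WC.lam_of_ne z (c + k) (c + k + 2 + i) _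
        (hh.mul (homogeneousComponent_isHomogeneous i h)) (by omega)
    set f : Finset (Fin 6) → MvPolynomial (Fin 6) K ⧸ I :=
      fun T => if T = Finset.univ then Ideal.Quotient.mk I g else 0 with hf
    have hcard : ∀ T : Finset (Fin 6), T.card = 6 ↔ T = Finset.univ := by
      intro T
      constructor
      · intro h
        exact Finset.eq_univ_of_card T (by rw [h]; rfl)
      · rintro rfl
        rfl
    have hfc : f ∈ cycles I 6 ((c + k + 7 : ℕ) : ℤ) := by
      constructor
      · intro T
        constructor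
        · intro h
          have hd : ((c + k + 7 : ℕ) : ℤ) - (6 : ℕ) = ((c + k + 1 : ℕ) : ℤ) := by
            push_cast; ring
          rw [hd, mem_piece_iff, hf]
          beta_reduce
          rw [if_pos ((hcard T).1 h)]
          exact Pool.Agent.R950.WC.mem_Pq.2 ⟨g, g2, rfl⟩
        · intro h
          rw [hf]
          beta_reduce
          rw [if_neg fun h2 => h ((hcard T).2 h2)]
      · show koszul I f = 0
        funext T
        show ∑ t ∈ Finset.univ \ T, ((-1 : ℤ) ^ (T.filter (· < t)).card) •
          (Ideal.Quotient.mk I (X t) * f (insert t T)) = 0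
        refine Finset.sum_eq_zero fun t _ => ?_
        rw [hf]
        beta_reduce
        split_ifs
        · rw [← map_mul, Ideal.Quotient.eq_zero_iff_mem.2 (hXg t), smul_zero]
        · rw [mul_zero, smul_zero]
    obtain ⟨w, w1, w2⟩ := h0 hfc
    have hw : w = 0 := by
      funext T
      apply (w1 T).2
      intro h
      have := Finset.card_le_univ T
      rw [Fintype.card_fin] at this
      omega
    rw [hw, map_zero] at w2
    have h1 := congrFun w2 Finset.univ
    rw [hf] at h1
    beta_reduce at h1
    rw [if_pos rfl] at h1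
    exact hgI (Ideal.Quotient.eq_zero_iff_mem.1 h1.symm)
  refine ⟨I, Pool.Agent.R950.WC.II_homog z (c + k), ?_⟩
  refine lt_of_le_of_lt (add_le_add (add_le_add h3 h3) le_rfl) (lt_of_lt_of_le ?_ h6)
  have : c + 4 + (c + 4) + m < c + k + 7 := by omega
  exact_mod_cast this

end Pool.Agent.Results.MP_78a38c_al.TopSyzygyNotSubadditive
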